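import Pool.Agent.H494Z.QE.Spec

set_option autoImplicit false
set_option linter.unusedSectionVars false
set_option linter.unusedVariables false

/-!
The quantum expander decomposition `S_DEC` from `S_ORTH`, `S_EXP` and `S_COV` (helper186).
-/

namespace Pool.Agent.H186Z.QE

open Matrix Finset Pool.Agent.H304Z.NH Pool.Agent.H494Z.QE
open scoped MatrixOrder ComplexOrder

section loc

variable {n : Type} [Fintype n] [DecidableEq n]

theorem en_le_near {G : Type} (u : G → Mat n) (hu : ∀ g, IsU (u g)) (S : Finset G)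
    (x y : Mat n) : en u S x ≤ 2 * en u S y + 8 * S.card * nsq (x - y) := by
  have h : ∀ s ∈ S, nsq (cm (u s) x) ≤ 2 * nsq (cm (u s) y) + 8 * nsq (x - y) := by
    intro s _
    have e : cm (u s) x = cm (u s) y + cm (u s) (x - y) := by
      rw [← cm_add]; congr 1; abel
    have h1 := nsq_add_le (cm (u s) y) (cm (u s) (x - y))
    have h2 := nsq_cm_le (hu s) (x - y)
    rw [e]; linarith
  have h2 := sum_le_sum h
  rw [sum_add_distrib, ← Finset.mul_sum, sum_const, nsmul_eq_mul] at h2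
  unfold en
  linarith

theorem pi_iso {w : Mat n} (hq : IsProj (wᴴ * w)) : w * (wᴴ * w) = w := by
  have h1 := hq.compl.nsq_mul w
  have h2 : wᴴ * w * (1 - wᴴ * w) = 0 := by
    rw [Matrix.mul_sub, Matrix.mul_one, hq.2, sub_self]
  rw [h2, tr_zero] at h1
  have h3 := nsq_eq_zero h1
  rw [Matrix.mul_sub, Matrix.mul_one, sub_eq_zero] at h3
  exact h3.symm

theorem range_proj {w : Mat n} (hq : IsProj (wᴴ * w)) : IsProj (w * wᴴ) := by
  constructor
  · rw [conjTranspose_mul, conjTranspose_conjTranspose]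
  · have e : w * wᴴ * (w * wᴴ) = w * (wᴴ * w) * wᴴ := by simp only [Matrix.mul_assoc]
    rw [e, pi_iso hq]

theorem left_of_right {U V : Mat n} (hU : IsProj U) (hV : IsProj V) (h : V * U = V) :
    U * V = V := by
  have := congrArg conjTranspose h
  rwa [conjTranspose_mul, hU.1, hV.1] at this

theorem conj_near {U V w : Mat n} (hU : IsProj U) (hV : IsProj V) (h : V * U = V)
    (hq : IsProj (wᴴ * w)) : nsq (w * V * wᴴ - V) ≤ 4 * nsq (w - U) := by
  have h' := left_of_right hU hV h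
  have e : w * V * wᴴ - V = (w - U) * V * wᴴ + V * (w - U)ᴴ := by
    rw [conjTranspose_sub, hU.1, Matrix.sub_mul, Matrix.sub_mul, h', Matrix.mul_sub, h]
    abel
  have h1 := nsq_add_le ((w - U) * V * wᴴ) (V * (w - U)ᴴ)
  have h2 : nsq ((w - U) * V * wᴴ) ≤ nsq ((w - U) * V) := by
    apply nsq_mul_le_right
    rw [conjTranspose_conjTranspose]
    exact hq.le_one
  have h3 : nsq ((w - U) * V) ≤ nsq (w - U) := nsq_mul_le_right hV.mul_star_le _
  have h4 : nsq (V * (w - U)ᴴ) ≤ nsq (w - U)ᴴ := nsq_mul_le_left hV.star_mul_le _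
  rw [nsq_star] at h4
  rw [e]; linarith

theorem local_step {G : Type} (S : Finset G) {γ κ e τ εC ε : ℝ} (hγ : 0 < γ) (he : 0 < e)
    (he1 : e ≤ 1 / 10) (heε : γ * e ≤ ε) (hτ0 : 0 ≤ τ) (hτ : τ ≤ 1 / 16)
    (hτS : 32 * S.card * τ ≤ γ * e / 32) (hεC : 2 * εC ≤ γ * e / 32)
    (u : G → Mat n) (hu : ∀ g, IsU (u g))
    (hE : ∀ (U : Mat n), IsProj U → Expand u S (γ / 4) e U →
      en u S U ≤ γ / 4 * e / 2 * tr U →
      ∃ p : Mat n, IsProj p ∧ p * U = p ∧ (1 - e) * tr U ≤ tr p ∧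
        en u S p ≤ 3 * (γ / 4) * e * tr U ∧ PI u S κ p)
    {U w : Mat n} (hU : IsProj U) (hw : w * U = w) (hq : IsProj (wᴴ * w))
    (hnear : nsq (w - U) ≤ τ * tr U) (hen : en u S U ≤ εC * tr U)
    (hex : Expand u S γ (e / 2) U) :
    ∃ p : Mat n, IsProj p ∧ p * (w * wᴴ) = p ∧ (1 - e) * (1 - 4 * τ) * tr U ≤ tr p ∧
      en u S p ≤ ε * tr p ∧ PI u S κ p := by
  have hN : 0 ≤ tr U := hU.tr_nonneg
  have hP : IsProj (w * wᴴ) := range_proj hq
  have hS0 : (0 : ℝ) ≤ S.card := Nat.cast_nonneg _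
  have hγe : 0 < γ * e := mul_pos hγ he
  have hup : tr (w * wᴴ) ≤ tr U := by
    rw [tr_comm]
    apply tr_mono
    apply sub_proj_le hU hq
    rw [Matrix.mul_assoc, hw]
  have hd : nsq (w * wᴴ - U) ≤ 4 * (τ * tr U) := by
    have h1 := conj_near hU hU hU.2 hq
    rw [hw] at h1
    linarith
  have hlow : (1 - 4 * τ) * tr U ≤ tr (w * wᴴ) := by
    have := tr_proj_le hP hU
    linarith
  have hlow' : 3 / 4 * tr U ≤ tr (w * wᴴ) := by nlinarith
  have hSτ : 8 * S.card * (4 * (τ * tr U)) ≤ γ * e / 32 * tr U := by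
    have := mul_le_mul_of_nonneg_right hτS hN
    linarith
  have hen' : en u S (w * wᴴ) ≤ γ / 4 * e / 2 * tr (w * wᴴ) := by
    have h1 := en_le_near u hu S (w * wᴴ) U
    have h2 : 8 * S.card * nsq (w * wᴴ - U) ≤ 8 * S.card * (4 * (τ * tr U)) :=
      mul_le_mul_of_nonneg_left hd (by positivity)
    have h3 := mul_le_mul_of_nonneg_right hεC hN
    have h4 := mul_le_mul_of_nonneg_left hlow' hγe.le
    have h5 := mul_nonneg hγe.le hN
    linarith
  have hex' : Expand u S (γ / 4) e (w * wᴴ) := by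
    intro V' hV' hV'P hlo hhi
    have hPV' := left_of_right hP hV' hV'P
    have hV : IsProj (wᴴ * V' * w) := by
      constructor
      · rw [conjTranspose_mul, conjTranspose_mul, conjTranspose_conjTranspose, hV'.1,
          Matrix.mul_assoc]
      · have e1 : wᴴ * V' * w * (wᴴ * V' * w) = wᴴ * (V' * (w * wᴴ) * V') * w := by
          simp only [Matrix.mul_assoc]
        rw [e1, hV'P, hV'.2]
    have hVU : wᴴ * V' * w * U = wᴴ * V' * w := by rw [Matrix.mul_assoc, hw]
    have htr : tr (wᴴ * V' * w) = tr V' := by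
      rw [Matrix.mul_assoc, tr_comm, Matrix.mul_assoc, hV'P]
    have hback : w * (wᴴ * V' * w) * wᴴ = V' := by
      have e1 : w * (wᴴ * V' * w) * wᴴ = (w * wᴴ) * (V' * (w * wᴴ)) := by
        simp only [Matrix.mul_assoc]
      rw [e1, hV'P, hPV']
    have h1 := conj_near hU hV hVU hq
    rw [hback, nsq_sub_comm] at h1
    have h2 := hex _ hV hVU (by rw [htr]; nlinarith) (by rw [htr]; linarith)
    rw [htr] at h2
    have h3 := en_le_near u hu S (wᴴ * V' * w) V'
    have h4 : 8 * S.card * nsq (wᴴ * V' * w - V') ≤ 8 * S.card * (4 * (τ * tr U)) :=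
      mul_le_mul_of_nonneg_left (by linarith) (by positivity)
    have h5 : e * (3 / 4 * tr U) ≤ tr V' := (mul_le_mul_of_nonneg_left hlow' he.le).trans hlo
    have h6 := mul_le_mul_of_nonneg_left h5 hγ.le
    have h7 := mul_nonneg hγ.le hV'.tr_nonneg
    linarith
  obtain ⟨p, hp, hpP, htp, henp, hPI⟩ := hE _ hP hex' hen'
  refine ⟨p, hp, hpP, ?_, ?_, hPI⟩
  · have := mul_le_mul_of_nonneg_left hlow (by linarith : (0 : ℝ) ≤ 1 - e)
    linarith
  · have hP0 := hP.tr_nonneg
    have h1 : 9 / 10 * tr (w * wᴴ) ≤ tr p := by nlinarith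
    have h2 := mul_le_mul_of_nonneg_left h1 hγe.le
    have h3 := mul_le_mul_of_nonneg_right heε hp.tr_nonneg
    have h4 := mul_nonneg hγe.le hP0
    linarith

theorem sum_nsq_mul_le {ι : Type} [Fintype ι] (p : ι → Mat n) (hp : ∀ j, IsProj (p j))
    (ho : ∀ i j, i ≠ j → p i * p j = 0) (x : Mat n) : ∑ j, nsq (x * p j) ≤ nsq x := by
  classical
  have hP : IsProj (∑ j, p j) := by
    constructor
    · rw [conjTranspose_sum]
      exact sum_congr rfl fun j _ => (hp j).1
    · rw [Finset.sum_mul]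
      refine sum_congr rfl fun i _ => ?_
      rw [Finset.mul_sum, sum_eq_single i]
      · exact (hp i).2
      · intro j _ hj
        exact ho i j (Ne.symm hj)
      · intro h
        exact absurd (mem_univ i) h
  have h1 : ∑ j, nsq (x * p j) = tr (xᴴ * x * ∑ j, p j) := by
    rw [Finset.mul_sum, tr_sum]
    exact sum_congr rfl fun j _ => (hp j).nsq_mul x
  have h2 := tr_mul_le (star_mul_nonneg x) hP.le_one
  rw [Matrix.mul_one, ← nsq_eq] at h2
  rw [h1]
  exact h2

end loc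

theorem dec (hO : S_ORTH) (hE : S_EXP) (hC : S_COV) : S_DEC := by
  classical
  intro G _ S hK
  obtain ⟨γ, hγ, hcov⟩ := hC G S hK
  obtain ⟨κ, hκ, hexp⟩ := hE G S (γ / 4) (by positivity)
  refine ⟨κ, hκ, ?_⟩
  intro ε hε W'
  obtain ⟨e, he, he1, he2, he3⟩ : ∃ e : ℝ, 0 < e ∧ e ≤ 1 / 10 ∧ e ≤ ε / 8 ∧ γ * e ≤ ε := by
    refine ⟨min (1 / 10) (min (ε / 8) (ε / γ)), by positivity, min_le_left _ _,
      (min_le_right _ _).trans (min_le_left _ _), ?_⟩
    have h1 : min (1 / 10) (min (ε / 8) (ε / γ)) ≤ ε / γ :=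
      (min_le_right _ _).trans (min_le_right _ _)
    rw [le_div_iff₀ hγ] at h1
    linarith
  have hS0 : (0 : ℝ) ≤ S.card := Nat.cast_nonneg _
  obtain ⟨τ, hτ, hτ1, hτ2, hτ3⟩ : ∃ τ : ℝ, 0 < τ ∧ τ ≤ 1 / 16 ∧ τ ≤ ε / 32 ∧
      32 * S.card * τ ≤ γ * e / 32 := by
    refine ⟨min (1 / 16) (min (ε / 32) (γ * e / (1024 * (S.card + 1)))), by positivity,
      min_le_left _ _, (min_le_right _ _).trans (min_le_left _ _), ?_⟩
    have h0 : 0 < min (1 / 16) (min (ε / 32) (γ * e / (1024 * (S.card + 1)))) := by positivity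
    have h1 : min (1 / 16) (min (ε / 32) (γ * e / (1024 * (S.card + 1)))) ≤
        γ * e / (1024 * (S.card + 1)) := (min_le_right _ _).trans (min_le_right _ _)
    rw [le_div_iff₀ (by positivity)] at h1
    linarith
  obtain ⟨εC, hεC, hεC1, hεC2, hεC3⟩ : ∃ εC : ℝ, 0 < εC ∧ 2 * εC ≤ γ * e / 32 ∧
      4 * εC ≤ ε / 8 * τ ∧ εC ≤ ε / 8 := by
    refine ⟨min (γ * e / 64) (min (ε * τ / 32) (ε / 8)), by positivity, ?_, ?_,
      (min_le_right _ _).trans (min_le_right _ _)⟩
    · have := min_le_left (γ * e / 64) (min (ε * τ / 32) (ε / 8))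
      linarith
    · have := (min_le_right (γ * e / 64) (min (ε * τ / 32) (ε / 8))).trans (min_le_left _ _)
      linarith
  obtain ⟨WC, δC, hδC, hcov⟩ := hcov (e / 2) εC (by positivity) hεC
  have hW0 : (0 : ℝ) ≤ (W' ×ˢ W').card := Nat.cast_nonneg _
  obtain ⟨δ, hδ, hδ1, hδ2⟩ : ∃ δ : ℝ, 0 < δ ∧ δ ≤ δC ∧
      (W' ×ˢ W').card * δ ≤ ε * (ε / 8) := by
    refine ⟨min δC (ε * (ε / 8) / ((W' ×ˢ W').card + 1)), by positivity, min_le_left _ _, ?_⟩
    have h0 : 0 < min δC (ε * (ε / 8) / ((W' ×ˢ W').card + 1)) := by positivity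
    have h1 := min_le_right δC (ε * (ε / 8) / ((W' ×ˢ W').card + 1))
    rw [le_div_iff₀ (by positivity)] at h1
    linarith
  refine ⟨WC ∪ W', δ, hδ, ?_⟩
  intro n _ _ u hu hu1 hdf
  have hd0 : (0 : ℝ) ≤ Fintype.card n := Nat.cast_nonneg _
  obtain ⟨ι, _, U, hU, hmass, hover, hen, hex⟩ := hcov n u hu hu1 (fun g hg h hh =>
    (hdf g (mem_union_left _ hg) h (mem_union_left _ hh)).trans
      (mul_le_mul_of_nonneg_right hδ1 hd0))
  obtain ⟨w, hwU, hwq, hwo, hwn⟩ := hO n ι U hU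
  have hA0 : 0 ≤ (1 - e) * (1 - 4 * τ) := mul_nonneg (by linarith) (by linarith)
  have hA1 : (1 - e) * (1 - 4 * τ) ≤ 1 := by nlinarith
  have hA2 : 1 - e - 4 * τ ≤ (1 - e) * (1 - 4 * τ) := by nlinarith
  have hloc : ∀ j, ∃ p : Mat n, IsProj p ∧ p * (w j * (w j)ᴴ) = p ∧
      (1 - e) * (1 - 4 * τ) * tr (U j) - nsq (w j - U j) / τ ≤ tr p ∧
      en u S p ≤ ε * tr p ∧ PI u S κ p := by
    intro j
    by_cases hg : nsq (w j - U j) ≤ τ * tr (U j)
    · obtain ⟨p, h1, h2, h3, h4, h5⟩ := local_step S hγ he he1 he3 hτ.le hτ1 hτ3 hεC1 u hu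
        (fun V hV h1 h2 => hexp n u hu V e hV he he1 h1 h2) (hU j) (hwU j) (hwq j) hg (hen j)
        (hex j)
      refine ⟨p, h1, h2, ?_, h4, h5⟩
      have : 0 ≤ nsq (w j - U j) / τ := div_nonneg (nsq_nonneg _) hτ.le
      linarith
    · refine ⟨0, isProj_zero, by simp, ?_, ?_, ?_⟩
      · rw [tr_zero]
        have h1 : tr (U j) ≤ nsq (w j - U j) / τ := by
          rw [le_div_iff₀ hτ]
          linarith [not_le.mp hg]
        have h2 := mul_le_mul_of_nonneg_right hA1 (hU j).tr_nonneg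
        linarith
      · rw [tr_zero]
        simp [en, cm, nsq_zero]
      · intro z _ _
        refine ⟨0, ?_⟩
        rw [Matrix.zero_mul, smul_zero, sub_zero, nsq_zero]
        exact mul_nonneg hκ (en_nonneg _ _ _)
  choose p hp hpw hpt hpe hpI using hloc
  have hpo : ∀ i j, i ≠ j → p i * p j = 0 := by
    intro i j hij
    have h1 := left_of_right (range_proj (hwq j)) (hp j) (hpw j)
    rw [← hpw i, ← h1]
    have e1 : p i * (w i * (w i)ᴴ) * (w j * (w j)ᴴ * p j) =
        p i * w i * ((w i)ᴴ * w j) * ((w j)ᴴ * p j) := by simp only [Matrix.mul_assoc]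
    rw [e1, hwo i j hij, Matrix.mul_zero, Matrix.zero_mul]
  set D : ι → ℝ := fun j => ∑ a ∈ W' ×ˢ W', nsq (df u a.1 a.2 * p j) with hD
  have hD0 : ∀ j, 0 ≤ D j := fun j => sum_nonneg fun _ _ => nsq_nonneg _
  have hDs : ∑ j, D j ≤ ε * (ε / 8) * Fintype.card n := by
    simp only [hD]
    rw [sum_comm]
    have h1 : ∀ a ∈ W' ×ˢ W', ∑ j, nsq (df u a.1 a.2 * p j) ≤ δ * Fintype.card n := by
      intro a ha
      rw [mem_product] at ha
      exact (sum_nsq_mul_le p hp hpo _).trans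
        (hdf _ (mem_union_right _ ha.1) _ (mem_union_right _ ha.2))
    have h2 := sum_le_sum h1
    rw [sum_const, nsmul_eq_mul] at h2
    have h3 := mul_le_mul_of_nonneg_right hδ2 hd0
    linarith
  refine ⟨{j // 0 < tr (p j) ∧ D j ≤ ε * tr (p j)}, inferInstance, fun j => p j.1,
    fun j => hp _, fun j => j.2.1, fun i j hij => hpo _ _ (fun h => hij (Subtype.ext h)), ?_,
    fun j => hpe _, fun j => hpI _, ?_⟩
  · have h1 : ∑ j : {j // 0 < tr (p j) ∧ D j ≤ ε * tr (p j)}, tr (p j.1) =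
        ∑ j, if 0 < tr (p j) ∧ D j ≤ ε * tr (p j) then tr (p j) else 0 := by
      rw [← sum_filter]
      exact (sum_subtype (p := fun j => 0 < tr (p j) ∧ D j ≤ ε * tr (p j)) _
        (fun j => by simp) (fun j => tr (p j))).symm
    have h2 : ∀ j ∈ (univ : Finset ι), tr (p j) - D j / ε ≤
        if 0 < tr (p j) ∧ D j ≤ ε * tr (p j) then tr (p j) else 0 := by
      intro j _
      have h0 : 0 ≤ D j / ε := div_nonneg (hD0 j) hε.le
      split_ifs with h
      · linarith
      · rw [not_and_or] at h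
        rcases h with h | h
        · linarith [not_lt.mp h]
        · have : tr (p j) ≤ D j / ε := by
            rw [le_div_iff₀ hε]
            linarith [not_le.mp h]
          linarith
    have h3 := sum_le_sum h2
    rw [← h1, sum_sub_distrib, ← sum_div] at h3
    have h4 := sum_le_sum (fun j (_ : j ∈ (univ : Finset ι)) => hpt j)
    rw [sum_sub_distrib, ← Finset.mul_sum, ← sum_div] at h4
    have h5 : (∑ j, D j) / ε ≤ ε / 8 * Fintype.card n := by
      rw [div_le_iff₀ hε]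
      linarith
    have h6 : (∑ j, nsq (w j - U j)) / τ ≤ ε / 8 * Fintype.card n := by
      rw [div_le_iff₀ hτ]
      have := mul_le_mul_of_nonneg_right hεC2 hd0
      linarith
    have h7 := mul_le_mul_of_nonneg_left hmass hA0
    have h8 : (1 - e - 4 * τ - εC) * Fintype.card n ≤
        (1 - e) * (1 - 4 * τ) * ((1 - εC) * Fintype.card n) := by
      rw [← mul_assoc]
      apply mul_le_mul_of_nonneg_right _ hd0
      have := mul_le_mul_of_nonneg_right hA1 hεC.le
      linarith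
    have h9 : (1 - ε) * Fintype.card n + ε / 8 * Fintype.card n + ε / 8 * Fintype.card n ≤
        (1 - e - 4 * τ - εC) * Fintype.card n := by
      rw [← add_mul, ← add_mul]
      apply mul_le_mul_of_nonneg_right _ hd0
      linarith
    show (1 - ε) * Fintype.card n ≤
      ∑ j : {j // 0 < tr (p j) ∧ D j ≤ ε * tr (p j)}, tr (p j.1)
    linarith
  · intro j g hg h hh
    refine le_trans ?_ j.2.2
    exact single_le_sum (f := fun a : G × G => nsq (df u a.1 a.2 * p j.1))
      (fun _ _ => nsq_nonneg _) (a := (g, h)) (mem_product.mpr ⟨hg, hh⟩)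

end Pool.Agent.H186Z.QE
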